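import Pool.Agent.Fricke58e1.Main

/-!
# Growth rate of the coefficients of Fricke trace polynomials: `C_H = C_L = φ`

All definitions are in `Pool/Agent/Fricke58e1/Defs.lean`, the proof is in
`Pool/Agent/Fricke58e1/Main.lean`.  The first four theorems below only record that the definitions
are what they should be.
-/

open Pool.Agent.Fricke58e1

namespace Pool.Agent.Results.MP_58e1fa_al.GoldenRatio

/-- Every word has a unique trace polynomial. -/
theorem existsUnique_tracePoly (w : FreeGroup (Fin 2)) : ∃! f, IsTracePoly w f :=
  Pool.Agent.Fricke58e1.existsUnique_tracePoly w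

/-- `tracePoly w` is the trace polynomial of `w`. -/
theorem isTracePoly_tracePoly (w : FreeGroup (Fin 2)) : IsTracePoly w (tracePoly w) :=
  tracePoly_spec w

/-- `maxH n` is the maximum of `H(w)` over the words with `‖w‖ = n`. -/
theorem isGreatest_maxH (n : ℕ) : IsGreatest {k | ∃ w, cycLen w = n ∧ H w = k} (maxH n) :=
  Pool.Agent.Fricke58e1.isGreatest_maxH n

/-- `maxL n` is the maximum of `L(w)` over the words with `‖w‖ = n`. -/
theorem isGreatest_maxL (n : ℕ) : IsGreatest {k | ∃ w, cycLen w = n ∧ L w = k} (maxL n) :=
  Pool.Agent.Fricke58e1.isGreatest_maxL n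

/-- **Main result**: `C_H = C_L = φ`, the golden ratio. -/
theorem result : CH = Real.goldenRatio ∧ CL = Real.goldenRatio :=
  Pool.Agent.Fricke58e1.main

end Pool.Agent.Results.MP_58e1fa_al.GoldenRatio
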